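import Mathlib
import Pool.Agent.H23.EL.Dist
import Pool.Agent.H23.PC.Wsq

/-!
# Distinct zeros of Dirichlet L-functions over `F_q[T]`: twists by characters of prime power order

Let `η` be a Dirichlet character modulo `D` (of any order; `D = 1` is allowed) and let `ψ` be a nontrivial character of
order a power of a prime `ℓ` modulo a monic irreducible polynomial `P`, `P ∤ D`, `ℓ ∤ deg P`. We show that the numbers
`N` and `N_d` of the zeros of `L(u, η ψ)` on the critical circle, counted with multiplicity and without, satisfy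
`N ≤ N_d + deg D` and `N ≥ deg P - 2`. So `N_d / N → 1` for every fixed `η` as `deg P → ∞`, and for `D = 1` all zeros
are simple.

The proof: modulo a place above `ℓ` the character `ψ` becomes the principal character modulo `P`, and the L-function
becomes the product of `1 - η(P) u ^ deg P` and of the L-function of `η`; the first factor is separable.
-/

set_option autoImplicit false

namespace Pool.Agent.Results.MP_f259ea_nt.PrimePowerTwists

open Polynomial

variable {F : Type} [Field F] [Fintype F]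

/-- the sum of `η(f) ψ(f)` over the monic polynomials `f` of degree `k` -/
noncomputable def cfs {D P : F[X]} (η : MulChar (AdjoinRoot D) ℂ) (ψ : MulChar (AdjoinRoot P) ℂ) (k : ℕ) : ℂ :=
  ∑ᶠ f ∈ {f : F[X] | f.Monic ∧ f.natDegree = k}, η (AdjoinRoot.mk D f) * ψ (AdjoinRoot.mk P f)

/-- the L-function `∑ η(f) ψ(f) u ^ deg f` (sum over the monic `f`) as a polynomial in `u`; the coefficients of the
powers with exponent `≥ deg D + deg P` vanish if `ψ` is nontrivial (`LPoly_coeff`) -/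
noncomputable def LPoly {D P : F[X]} (η : MulChar (AdjoinRoot D) ℂ) (ψ : MulChar (AdjoinRoot P) ℂ) : ℂ[X] :=
  ∑ k ∈ Finset.range (D.natDegree + P.natDegree), C (cfs η ψ k) * X ^ k

open Classical in
/-- the zeros of the L-function on the critical circle `|u| = q ^ (-1/2)`, with multiplicities -/
noncomputable def zeros {D P : F[X]} (η : MulChar (AdjoinRoot D) ℂ) (ψ : MulChar (AdjoinRoot P) ℂ) :
    Multiset ℂ :=
  (LPoly η ψ).roots.filter (fun u => √(Fintype.card F : ℝ) * ‖u‖ = 1)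

/-- the set of the zeros on the critical circle -/
def zeroSet {D P : F[X]} (η : MulChar (AdjoinRoot D) ℂ) (ψ : MulChar (AdjoinRoot P) ℂ) : Set ℂ :=
  {u : ℂ | √(Fintype.card F : ℝ) * ‖u‖ = 1 ∧ (LPoly η ψ).eval u = 0}

open Pool.Agent.H23.FF Pool.Agent.H23.PC Pool.Agent.H23.EL
open Pool.Agent.H341R2.Sharp (Mon mem_Mon)

theorem set_Mon (k : ℕ) : {R : F[X] | R.Monic ∧ R.natDegree = k} = (Mon F k : Set F[X]) := by
  ext R
  rw [Set.mem_ofPred_eq, Finset.mem_coe, mem_Mon]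

theorem cfs_eq {D P : F[X]} (η : MulChar (AdjoinRoot D) ℂ) (ψ : MulChar (AdjoinRoot P) ℂ) (k : ℕ) :
    cfs η ψ k = cf (fun f => fn η f * fn ψ f) k := by
  unfold cfs cf
  rw [set_Mon, finsum_mem_coe_finset]
  rfl

theorem LPoly_eq {D P : F[X]} (η : MulChar (AdjoinRoot D) ℂ) (ψ : MulChar (AdjoinRoot P) ℂ) :
    LPoly η ψ = Lp (D.natDegree + P.natDegree) (fun f => fn η f * fn ψ f) := by
  unfold LPoly Lp
  apply Finset.sum_congr rfl
  intro k _
  rw [cfs_eq]

theorem nt_of {P : F[X]} (hP : P.Monic) {ψ : MulChar (AdjoinRoot P) ℂ} (hψ : ψ ≠ 1) : NT P (fn ψ) := by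
  obtain ⟨D, hD⟩ := exists_cond hP rfl
  exact (hD ψ hψ).1

omit [Fintype F] in
theorem pow_of {P : F[X]} {ψ : MulChar (AdjoinRoot P) ℂ} {n : ℕ} (hn : ψ ^ n = 1) (f : F[X])
    (hf : IsCoprime f P) : fn ψ f ^ n = 1 := by
  have h1 : (ψ ^ n) (AdjoinRoot.mk P f) = 1 := by
    rw [hn, ← un_coe hf, MulChar.one_apply_coe]
  rw [← un_coe hf, MulChar.pow_apply_coe] at h1
  unfold fn
  rw [← un_coe hf]
  exact h1

omit [Fintype F] in
theorem cop_of {D P : F[X]} (hP : Irreducible P) (hPD : ¬ P ∣ D) : IsCoprime P D :=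
  hP.coprime_iff_not_dvd.2 hPD

/-- the coefficients of the L-function -/
theorem LPoly_coeff {D P : F[X]} (hD : D.Monic) (hP : P.Monic) (hPi : Irreducible P) (hPD : ¬ P ∣ D)
    (η : MulChar (AdjoinRoot D) ℂ) {ψ : MulChar (AdjoinRoot P) ℂ} (hψ : ψ ≠ 1) (k : ℕ) :
    (LPoly η ψ).coeff k = cfs η ψ k := by
  rw [LPoly_eq, cfs_eq]
  apply Lp_coeff (DC_mul (dc_fn hD η) (dc_fn hP ψ)) (hD.natDegree_mul hP)
  exact NT_mul (dc_fn hD η) (dc_fn hP ψ) (cop_of hPi hPD) (nt_of hP hψ)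

theorem LPoly_ne {D P : F[X]} (hD : D.Monic) (hP : P.Monic) (hPi : Irreducible P) (hPD : ¬ P ∣ D)
    (η : MulChar (AdjoinRoot D) ℂ) {ψ : MulChar (AdjoinRoot P) ℂ} (hψ : ψ ≠ 1) : LPoly η ψ ≠ 0 := by
  intro h
  have h1 := LPoly_coeff hD hP hPi hPD η hψ 0
  rw [h, coeff_zero, cfs_eq, cf_zero (DC_mul (dc_fn hD η) (dc_fn hP ψ))] at h1
  exact zero_ne_one h1

theorem zeros_eq {D P : F[X]} (η : MulChar (AdjoinRoot D) ℂ) (ψ : MulChar (AdjoinRoot P) ℂ) :
    zeros η ψ = crit F (Lp (D.natDegree + P.natDegree) (fun f => fn η f * fn ψ f)) := by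
  unfold zeros crit
  rw [LPoly_eq]
  rfl

open Classical in
theorem zeroSet_eq {D P : F[X]} (hD : D.Monic) (hP : P.Monic) (hPi : Irreducible P) (hPD : ¬ P ∣ D)
    (η : MulChar (AdjoinRoot D) ℂ) {ψ : MulChar (AdjoinRoot P) ℂ} (hψ : ψ ≠ 1) :
    zeroSet η ψ = ((zeros η ψ).toFinset : Set ℂ) := by
  ext u
  unfold zeroSet zeros
  rw [Set.mem_ofPred_eq, Finset.mem_coe, Multiset.mem_toFinset, Multiset.mem_filter,
    mem_roots (LPoly_ne hD hP hPi hPD η hψ), IsRoot.def]
  tauto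

/-- **Almost all zeros are simple for twists by characters of prime power order.** -/
theorem result (F : Type) [Field F] [Fintype F] (D P : F[X]) (hD : D.Monic) (hP : P.Monic)
    (hPi : Irreducible P) (hPD : ¬ P ∣ D) (l j : ℕ) (hl : l.Prime) (hlP : ¬ l ∣ P.natDegree)
    (η : MulChar (AdjoinRoot D) ℂ) (ψ : MulChar (AdjoinRoot P) ℂ) (hψ : ψ ≠ 1) (hψl : ψ ^ l ^ j = 1) :
    (zeros η ψ).card ≤ (zeroSet η ψ).ncard + D.natDegree ∧
      P.natDegree ≤ (zeros η ψ).card + 2 := by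
  classical
  rw [zeroSet_eq hD hP hPi hPD η hψ, Set.ncard_coe_finset, zeros_eq]
  exact main hl (dc_fn hD η) (dc_fn hP ψ) rfl rfl hPi (cop_of hPi hPD) hlP
    (fun f hf => pow_of hψl f hf) (nt_of hP hψ)

end Pool.Agent.Results.MP_f259ea_nt.PrimePowerTwists
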